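import Pool.Agent.Helper12.MA.StC

/-!
# Project MA, module CUA: basic facts on a cut
-/

set_option autoImplicit false

namespace Pool.Agent.Helper69.MA

open Pool.Agent.Helper12.MA
open Pool.Agent.Helper51.AJ (IsMinor Planar Apex ExMinor Con Tch)
open Pool.Agent.Helper12.NK (rst Kc add cnt Pcy IsFace Cof plus)

private theorem walk_closed {α : Type} {H : SimpleGraph α} {T : Set α}
    (hT : ∀ a b, H.Adj a b → a ∈ T → b ∈ T) {a b : α} (w : H.Walk a b) (ha : a ∈ T) : b ∈ T := by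
  induction w with
  | nil => exact ha
  | cons h _ ih => exact ih (hT _ _ h ha)

/-- A connected set in the union of two sets without edges between them. -/
private theorem con_side {V : Type} {M : SimpleGraph V} {S X Y : Set V} (hS : Con M S)
    (hXY : S ⊆ X ∪ Y) (hno : ∀ x ∈ X, ∀ y ∈ Y, ¬ M.Adj x y) {s : V} (hs : s ∈ S) (hsX : s ∈ X) :
    S ⊆ X := by
  intro t ht
  have hpre := hS.preconnected ⟨s, hs⟩ ⟨t, ht⟩
  obtain ⟨w⟩ := hpre
  have h := walk_closed (T := {u : ↥S | (u : V) ∈ X}) (by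
    intro a b hab ha
    have hab' : M.Adj (a : V) (b : V) := hab
    rcases hXY b.2 with hb | hb
    · exact hb
    · exact absurd hab' (hno _ ha _ hb)) w hsX
  exact h

private theorem card3 {V : Type} (a b c : V) : ({a, b, c} : Set V).ncard ≤ 3 := by
  have h1 := Set.ncard_insert_le a ({b, c} : Set V)
  have h2 := Set.ncard_insert_le b ({c} : Set V)
  rw [Set.ncard_singleton] at h2
  omega

private theorem card4 {V : Type} (a b c d : V) : ({a, b, c, d} : Set V).ncard ≤ 4 := by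
  have h1 := Set.ncard_insert_le a ({b, c, d} : Set V)
  have h2 := card3 b c d
  omega

private theorem four {V : Type} (a b c d : V) (h : ({a, b, c, d} : Set V).ncard = 4) :
    a ≠ b ∧ a ≠ c ∧ a ≠ d ∧ b ≠ c ∧ b ≠ d ∧ c ≠ d := by
  have key : ∀ x y z : V, ({a, b, c, d} : Set V) ⊆ {x, y, z} → False := by
    intro x y z hs
    have h1 := Set.ncard_le_ncard hs (Set.toFinite _)
    have h2 := card3 x y z
    omega
  refine ⟨fun e => key a c d ?_, fun e => key a b d ?_, fun e => key a b c ?_,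
    fun e => key a b d ?_, fun e => key a b c ?_, fun e => key a b c ?_⟩ <;>
  · subst e
    intro t ht
    simp only [Set.mem_insert_iff, Set.mem_singleton_iff] at ht ⊢
    tauto

section

variable {V : Type} [Finite V] {G : SimpleGraph V} {z v p q r r' : V} {f1 f2 f3 f4 : Set V}
  {σ b : V} {X Y : Set V}

private theorem no_edge (hC : Cut G z v p q r r' f1 f3 σ b X Y) :
    ∀ x ∈ X, ∀ y ∈ Y, ¬ (dl G p q).Adj x y := by
  intro x hx y hy h
  obtain ⟨h1, h2⟩ := hC.sep.only x hx y hy h.1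
  exact h.2.1 ⟨h1, h2⟩

private theorem no_edge' (hC : Cut G z v p q r r' f1 f3 σ b X Y) :
    ∀ y ∈ Y, ∀ x ∈ X, ¬ (dl G p q).Adj y x := by
  intro y hy x hx h
  exact no_edge hC x hx y hy h.symm

private theorem not_side (hC : Cut G z v p q r r' f1 f3 σ b X Y) {t : V}
    (ht : t ∈ X ∨ t ∈ Y) : t ≠ v ∧ t ≠ z ∧ t ≠ σ ∧ t ≠ b := by
  have h1 : t ∈ X ∪ Y := ht
  rw [hC.sep.cov] at h1
  simp only [Set.mem_compl_iff, Set.mem_insert_iff, Set.mem_singleton_iff, not_or] at h1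
  exact h1

private theorem in_side (hC : Cut G z v p q r r' f1 f3 σ b X Y) {t : V} (h1 : t ≠ v)
    (h2 : t ≠ z) (h3 : t ≠ σ) (h4 : t ≠ b) : t ∈ X ∪ Y := by
  rw [hC.sep.cov]
  simp only [Set.mem_compl_iff, Set.mem_insert_iff, Set.mem_singleton_iff, not_or]
  exact ⟨h1, h2, h3, h4⟩

/-- (1) -/
private theorem one (hFAX : StFAX) (hFAY : StFAY)
    (hC : Cut G z v p q r r' f1 f3 σ b X Y) (F : Set V) (hF : IsFace (dl G p q) {v}ᶜ F) (s0 : V)
    (hs0X : s0 ∉ X) (hs0Y : s0 ∉ Y) (hsub : F ⊆ X ∪ Y ∪ {s0})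
    (hFX : (F ∩ X).Nonempty) (hFY : (F ∩ Y).Nonempty) : False := by
  obtain ⟨x, hxF, hxX⟩ := hFX
  obtain ⟨y, hyF, hyY⟩ := hFY
  obtain ⟨t, htF, htx, hty, hts⟩ : ∃ t ∈ F, t ≠ x ∧ t ≠ y ∧ (s0 ∈ F → t = s0) := by
    by_cases hs : s0 ∈ F
    · refine ⟨s0, hs, ?_, ?_, fun _ => rfl⟩
      · rintro rfl
        exact hs0X hxX
      · rintro rfl
        exact hs0Y hyY
    · have h3 := (hFAX V (dl G p q) {v}ᶜ F hF).2.1
      by_contra hcon
      have hsub2 : F ⊆ {x, y} := by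
        intro t ht
        simp only [Set.mem_insert_iff, Set.mem_singleton_iff]
        by_contra hne
        rw [not_or] at hne
        exact hcon ⟨t, ht, hne.1, hne.2, fun h => absurd h hs⟩
      have h4 := Set.ncard_le_ncard hsub2 (Set.toFinite _)
      have h5 := Set.ncard_insert_le x ({y} : Set V)
      rw [Set.ncard_singleton] at h5
      omega
  have hcon := (hFAY V (dl G p q) {v}ᶜ F hF t htF).1
  have hs : F \ {t} ⊆ X ∪ Y := by
    rintro u ⟨huF, hut⟩
    rcases hsub huF with h | h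
    · exact h
    · rw [Set.mem_singleton_iff] at h
      rw [h] at huF hut
      exact absurd (hts huF).symm hut
  have h1 := con_side hcon hs (no_edge hC) ⟨hxF, fun h => htx (Set.mem_singleton_iff.1 h).symm⟩ hxX
  have h2 : y ∈ X := h1 ⟨hyF, fun h => hty (Set.mem_singleton_iff.1 h).symm⟩
  exact Set.disjoint_left.1 hC.sep.dis h2 hyY

private theorem part1 (hFAX : StFAX) (hFAY : StFAY)
    (hC : Cut G z v p q r r' f1 f3 σ b X Y) (F : Set V) (hF : IsFace (dl G p q) {v}ᶜ F)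
    (hzF : z ∉ F) (hFX : (F ∩ X).Nonempty) (hFY : (F ∩ Y).Nonempty) : σ ∈ F ∧ b ∈ F := by
  have hvF : v ∉ F := fun h => (hFAX V (dl G p q) {v}ᶜ F hF).1 h rfl
  constructor
  · by_contra hs
    refine one hFAX hFAY hC F hF b (fun h => (not_side hC (Or.inl h)).2.2.2 rfl)
      (fun h => (not_side hC (Or.inr h)).2.2.2 rfl) ?_ hFX hFY
    intro t ht
    by_cases htb : t = b
    · exact Or.inr htb
    · refine Or.inl (in_side hC ?_ ?_ ?_ htb)
      · rintro rfl
        exact hvF ht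
      · rintro rfl
        exact hzF ht
      · rintro rfl
        exact hs ht
  · by_contra hs
    refine one hFAX hFAY hC F hF σ (fun h => (not_side hC (Or.inl h)).2.2.1 rfl)
      (fun h => (not_side hC (Or.inr h)).2.2.1 rfl) ?_ hFX hFY
    intro t ht
    by_cases htb : t = σ
    · exact Or.inr htb
    · refine Or.inl (in_side hC ?_ ?_ htb ?_)
      · rintro rfl
        exact hvF ht
      · rintro rfl
        exact hzF ht
      · rintro rfl
        exact hs ht

/-- (3) for one face -/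
private theorem three (hFAY : StFAY)
    (hC : Cut G z v p q r r' f1 f3 σ b X Y) (F : Set V) (hF : IsFace (dl G p q) {v}ᶜ F)
    (hz : z ∈ F) (t : V) (ht : t ∈ F) (htz : t ≠ z) (htX : t ∉ X) (htY : t ∉ Y)
    (hsub : F ⊆ X ∪ Y ∪ {z, t}) (a c : V) (ha : a ∈ F) (hc : c ∈ F) (haX : a ∈ X) (hcY : c ∈ Y)
    (hza : (dl G p q).Adj z a) (hzc : (dl G p q).Adj z c) :
    Con (dl G p q) (F ∩ X) ∧ Con (dl G p q) (F ∩ Y) ∧ (∃ a ∈ F ∩ X, G.Adj t a) ∧
      (∃ a ∈ F ∩ Y, G.Adj t a) := by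
  have hac : a ≠ c := by
    rintro rfl
    exact Set.disjoint_left.1 hC.sep.dis haX hcY
  obtain ⟨A, B, hAB, hdis, hntch, hA, hB⟩ :=
    (hFAY V (dl G p q) {v}ᶜ F hF z hz).2 t ht htz a ha c hc hac hza hzc
  have hAB' : ∀ u ∈ F \ {z, t}, u ∈ X ∪ Y := by
    rintro u ⟨hu, hun⟩
    rcases hsub hu with h | h
    · exact h
    · exact absurd h hun
  rcases hA with ⟨h, -⟩ | ⟨-, haA, hAcon, x1, hx1, a1, ha1, hadj1⟩
  · rw [h] at haX
    exact absurd haX htX
  rcases hB with ⟨h, -⟩ | ⟨-, hcB, hBcon, x2, hx2, a2, ha2, hadj2⟩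
  · rw [h] at hcY
    exact absurd hcY htY
  have hAX : A ⊆ X := con_side hAcon (fun u hu => hAB' u (hAB ▸ Or.inl hu)) (no_edge hC) haA haX
  have hBY : B ⊆ Y := by
    refine con_side hBcon (fun u hu => ?_) (no_edge' hC) hcB hcY
    rcases hAB' u (hAB ▸ Or.inr hu) with h | h
    · exact Or.inr h
    · exact Or.inl h
  have hAF : ∀ u ∈ A, u ∈ F := fun u hu => by
    have h : u ∈ F \ {z, t} := hAB ▸ Or.inl hu
    exact h.1
  have hBF : ∀ u ∈ B, u ∈ F := fun u hu => by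
    have h : u ∈ F \ {z, t} := hAB ▸ Or.inr hu
    exact h.1
  have hzXY : z ∉ X ∧ z ∉ Y := ⟨fun h => (not_side hC (Or.inl h)).2.1 rfl,
    fun h => (not_side hC (Or.inr h)).2.1 rfl⟩
  have eA : A = F ∩ X := by
    apply Set.Subset.antisymm
    · exact fun u hu => ⟨hAF u hu, hAX hu⟩
    · rintro u ⟨huF, huX⟩
      have h : u ∈ A ∪ B := by
        rw [hAB]
        refine ⟨huF, ?_⟩
        rintro (h | h)
        · rw [h] at huX
          exact hzXY.1 huX
        · rw [Set.mem_singleton_iff] at h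
          rw [h] at huX
          exact htX huX
      rcases h with h | h
      · exact h
      · exact absurd (hBY h) (Set.disjoint_left.1 hC.sep.dis huX)
  have eB : B = F ∩ Y := by
    apply Set.Subset.antisymm
    · exact fun u hu => ⟨hBF u hu, hBY hu⟩
    · rintro u ⟨huF, huY⟩
      have h : u ∈ A ∪ B := by
        rw [hAB]
        refine ⟨huF, ?_⟩
        rintro (h | h)
        · rw [h] at huY
          exact hzXY.2 huY
        · rw [Set.mem_singleton_iff] at h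
          rw [h] at huY
          exact htY huY
      rcases h with h | h
      · exact absurd huY (Set.disjoint_left.1 hC.sep.dis (hAX h))
      · exact h
  rw [Set.mem_singleton_iff] at hx1 hx2
  rw [hx1] at hadj1
  rw [hx2] at hadj2
  refine ⟨eA ▸ hAcon, eB ▸ hBcon, ⟨a1, eA ▸ ha1, hadj1.1⟩, ⟨a2, eB ▸ ha2, hadj2.1⟩⟩

/-- (5), left side -/
private theorem five (hFNB : StFNB) (hBAS : StBAS) (hCRN : StCRN) (hPVB : StPVB)
    (cf : Cfg G z v p q r r' f1 f2 f3 f4) (hC : Cut G z v p q r r' f1 f3 σ b X Y) :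
    ∃ x ∈ X, x ≠ p ∧ x ≠ r' ∧ G.Adj v x := by
  obtain ⟨-, -, -, b4, b5, b6, -⟩ := hBAS V G cf.bh
  have hpX := hC.sep.xL
  have hqY := hC.sep.yR
  have hvp := (hPVB V G z v p q r r' f1 f2 f3 f4 cf).1
  have hqp : q ≠ p := fun h => cf.ds.ne.2.2.2.2.1 h.symm
  have hqb : q ≠ b := (not_side hC (Or.inr hqY)).2.2.2
  have hbr : b ≠ r' := fun h => (not_side hC (Or.inl hC.sX)).2.2.2 h.symm
  obtain ⟨-, -, -, -, hzb, -⟩ := four v z σ b hC.sep.card
  -- `A` is nonempty
  have hA : (X \ {p, r'}).Nonempty := by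
    by_contra hemp
    rw [Set.not_nonempty_iff_eq_empty, Set.diff_eq_empty] at hemp
    by_cases hpb : G.Adj p b
    · have hPn : Pn (dl G p q) {v}ᶜ := ⟨b5 v p q, cf.ds.pl⟩
      have hPadj : (dl G p q).Adj p b := by
        refine ⟨hpb, ?_, ?_⟩
        · rintro ⟨-, h⟩
          exact hqb h.symm
        · rintro ⟨h, -⟩
          exact hqp h.symm
      have hpv : p ∈ ({v}ᶜ : Set V) := (not_side hC (Or.inl hpX)).1
      have hbv : b ∈ ({v}ᶜ : Set V) := by
        intro h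
        rw [Set.mem_singleton_iff] at h
        exact hvp (h ▸ hpb.symm)
      have hcof := (hFNB V (dl G p q) {v}ᶜ hPn).2.2.2.2.2 p hpv b hbv hPadj
      exact hbr ((hCRN V G z v p q r r' f1 f2 f3 f4 cf).2.2.1 b hC.bf (fun h => hzb h.symm) hcof)
    · have hsub : {c | G.Adj p c} ⊆ ({q, z, r', σ} : Set V) := by
        intro c hc
        have hc' : G.Adj p c := hc
        simp only [Set.mem_insert_iff, Set.mem_singleton_iff]
        by_contra hne
        rw [not_or, not_or, not_or] at hne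
        obtain ⟨n1, n2, n3, n4⟩ := hne
        have hcv : c ≠ v := by
          rintro rfl
          exact hvp hc'.symm
        have hcb : c ≠ b := by
          rintro rfl
          exact hpb hc'
        rcases in_side hC hcv n2 n4 hcb with h | h
        · rcases hemp h with h' | h'
          · exact G.ne_of_adj hc' h'.symm
          · exact n3 h'
        · exact n1 (hC.sep.only p hpX c h hc').2
      have h1 := b4 p
      have h2 := Set.ncard_le_ncard hsub (Set.toFinite _)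
      have h3 := card4 q z r' σ
      omega
  by_contra hcon
  have hnb : Nb G (X \ {p, r'}) ⊆ {p, r', σ, b} := by
    rintro n ⟨hnA, a, ⟨haX, han⟩, hadj⟩
    simp only [Set.mem_insert_iff, Set.mem_singleton_iff, not_or] at han
    simp only [Set.mem_insert_iff, Set.mem_singleton_iff]
    by_contra hne
    rw [not_or, not_or, not_or] at hne
    obtain ⟨n1, n2, n3, n4⟩ := hne
    have hnv : n ≠ v := by
      rintro rfl
      exact hcon ⟨a, haX, han.1, han.2, hadj.symm⟩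
    have hnz : n ≠ z := by
      rintro rfl
      rcases (cf.ds.nb a).1 hadj.symm with h | h | h | h | h
      · exact (not_side hC (Or.inl haX)).1 h
      · exact han.1 h
      · rw [h] at haX
        exact Set.disjoint_left.1 hC.sep.dis haX hqY
      · rw [h] at haX
        exact Set.disjoint_left.1 hC.sep.dis haX hC.rY
      · exact han.2 h
    rcases in_side hC hnv hnz n3 n4 with h | h
    · apply hnA
      refine ⟨h, ?_⟩
      rintro (h' | h')
      · exact n1 h'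
      · exact n2 h'
    · exact han.1 (hC.sep.only a haX n h hadj).1
  have h4 : (Nb G (X \ {p, r'})).ncard ≤ 4 :=
    (Set.ncard_le_ncard hnb (Set.toFinite _)).trans (card4 _ _ _ _)
  have h5 := b6 (X \ {p, r'}) hA h4
  have h6 : q ∈ (X \ {p, r'}) ∪ Nb G (X \ {p, r'}) := by
    rw [h5]
    exact Set.mem_univ q
  rcases h6 with h | h
  · exact Set.disjoint_left.1 hC.sep.dis h.1 hqY
  · have h7 := hnb h
    simp only [Set.mem_insert_iff, Set.mem_singleton_iff] at h7
    rcases h7 with h | h | h | h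
    · exact hqp h
    · exact Set.disjoint_left.1 hC.sep.dis (h ▸ hC.sX) hqY
    · exact (not_side hC (Or.inr hqY)).2.2.1 h
    · exact hqb h

end

/-- CUA. -/
theorem hCUA : StFNB → StFAX → StFAY → StBAS → StSYM → StCRN → StPVB → StCUA := by
  intro hFNB hFAX hFAY hBAS hSYM hCRN hPVB V _ G z v p q r r' f1 f2 f3 f4 cf σ b X Y hC
  obtain ⟨hvz, hvσ, hvb, hzσ, hzb, hσb⟩ := four v z σ b hC.sep.card
  have hpX := hC.sep.xL
  have hqY := hC.sep.yR
  have hrY := hC.rY
  have hsX := hC.sX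
  have hXY : ∀ t, t ∈ X → t ∈ Y → False := fun t h1 h2 => Set.disjoint_left.1 hC.sep.dis h1 h2
  have nX : ∀ {t}, t ∈ X → t ≠ v ∧ t ≠ z ∧ t ≠ σ ∧ t ≠ b := fun h => not_side hC (Or.inl h)
  have nY : ∀ {t}, t ∈ Y → t ≠ v ∧ t ≠ z ∧ t ≠ σ ∧ t ≠ b := fun h => not_side hC (Or.inr h)
  have hfv : ∀ F, IsFace (dl G p q) {v}ᶜ F → ∀ t ∈ F, t ≠ v := fun F hF t ht h =>
    (hFAX V (dl G p q) {v}ᶜ F hF).1 ht h
  have hzp : z ≠ p := fun h => (nX hpX).2.1 h.symm
  have hzq : z ≠ q := fun h => (nY hqY).2.1 h.symm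
  have hP1 := part1 hFAX hFAY hC
  obtain ⟨c1, c2, c3, c4, -, -⟩ := hCRN V G z v p q r r' f1 f2 f3 f4 cf
  -- `σ`, `b` on the faces
  have hσ2 : σ ∉ f2 := by
    intro h
    have h1 : σ ∈ f1 ∩ f2 := ⟨hC.sf, h⟩
    rw [cf.x12] at h1
    rcases h1 with h1 | h1
    · exact hzσ h1.symm
    · exact (nY hrY).2.2.1 h1.symm
  have hb2 : b ∉ f2 := by
    intro h
    have h1 : b ∈ f2 ∩ f3 := ⟨h, hC.bf⟩
    rw [cf.x23] at h1
    rcases h1 with h1 | h1
    · exact hzb h1.symm
    · exact (nY hqY).2.2.2 h1.symm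
  have hσ4 : σ ∉ f4 := by
    intro h
    have h1 : σ ∈ f4 ∩ f1 := ⟨h, hC.sf⟩
    rw [cf.x41] at h1
    rcases h1 with h1 | h1
    · exact hzσ h1.symm
    · exact (nX hpX).2.2.1 h1.symm
  have hb4 : b ∉ f4 := by
    intro h
    have h1 : b ∈ f3 ∩ f4 := ⟨hC.bf, h⟩
    rw [cf.x34] at h1
    rcases h1 with h1 | h1
    · exact hzb h1.symm
    · exact (nX hsX).2.2.2 h1.symm
  have hb1 : b ∉ f1 := by
    intro h
    have h1 : b ∈ f1 ∩ f3 := ⟨h, hC.bf⟩
    rw [cf.x13] at h1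
    exact hzb h1.symm
  have hσ3 : σ ∉ f3 := by
    intro h
    have h1 : σ ∈ f1 ∩ f3 := ⟨hC.sf, h⟩
    rw [cf.x13] at h1
    exact hzσ h1.symm
  -- (2)
  have hsub2 : f2 \ {z} ⊆ X ∪ Y := by
    rintro t ⟨ht, htz⟩
    refine in_side hC (hfv f2 cf.i2 t ht) htz ?_ ?_
    · rintro rfl
      exact hσ2 ht
    · rintro rfl
      exact hb2 ht
  have hsub4 : f4 \ {z} ⊆ X ∪ Y := by
    rintro t ⟨ht, htz⟩
    refine in_side hC (hfv f4 cf.i4 t ht) htz ?_ ?_
    · rintro rfl
      exact hσ4 ht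
    · rintro rfl
      exact hb4 ht
  have hf2 : f2 ⊆ insert z Y := by
    have h1 := (hFAY V (dl G p q) {v}ᶜ f2 cf.i2 z cf.z2).1
    have h2 : f2 \ {z} ⊆ Y := con_side h1 (fun t ht => (hsub2 ht).symm) (no_edge' hC)
      ⟨cf.q2, fun h => hzq (Set.mem_singleton_iff.1 h).symm⟩ hqY
    intro t ht
    by_cases htz : t = z
    · exact Or.inl htz
    · exact Or.inr (h2 ⟨ht, htz⟩)
  have hf4 : f4 ⊆ insert z X := by
    have h1 := (hFAY V (dl G p q) {v}ᶜ f4 cf.i4 z cf.z4).1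
    have h2 : f4 \ {z} ⊆ X := con_side h1 hsub4 (no_edge hC)
      ⟨cf.p4, fun h => hzp (Set.mem_singleton_iff.1 h).symm⟩ hpX
    intro t ht
    by_cases htz : t = z
    · exact Or.inl htz
    · exact Or.inr (h2 ⟨ht, htz⟩)
  -- the neighbours of `z`
  have hadj : ∀ t, G.Adj z t → (dl G p q).Adj z t := by
    intro t ht
    refine ⟨ht, ?_, ?_⟩
    · rintro ⟨h, -⟩
      exact hzp h
    · rintro ⟨h, -⟩
      exact hzq h
  have hzp' := hadj p ((cf.ds.nb p).2 (Or.inr (Or.inl rfl)))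
  have hzq' := hadj q ((cf.ds.nb q).2 (Or.inr (Or.inr (Or.inl rfl))))
  have hzr' := hadj r ((cf.ds.nb r).2 (Or.inr (Or.inr (Or.inr (Or.inl rfl)))))
  have hzs' := hadj r' ((cf.ds.nb r').2 (Or.inr (Or.inr (Or.inr (Or.inr rfl)))))
  -- (3)
  have hf1 : f1 ⊆ X ∪ Y ∪ {z, σ} := by
    intro t ht
    by_cases htz : t = z
    · exact Or.inr (Or.inl htz)
    · by_cases hts : t = σ
      · exact Or.inr (Or.inr hts)
      · refine Or.inl (in_side hC (hfv f1 cf.i1 t ht) htz hts ?_)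
        rintro rfl
        exact hb1 ht
  have hf3 : f3 ⊆ X ∪ Y ∪ {z, b} := by
    intro t ht
    by_cases htz : t = z
    · exact Or.inr (Or.inl htz)
    · by_cases htb : t = b
      · exact Or.inr (Or.inr htb)
      · refine Or.inl (in_side hC (hfv f3 cf.i3 t ht) htz ?_ htb)
        rintro rfl
        exact hσ3 ht
  obtain ⟨g1, g2, g3, g4⟩ := three hFAY hC f1 cf.i1 cf.z1 σ hC.sf (fun h => hzσ h.symm)
    (fun h => (nX h).2.2.1 rfl) (fun h => (nY h).2.2.1 rfl) hf1 p r cf.p1 cf.r1 hpX hrY hzp' hzr'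
  obtain ⟨k1, k2, k3, k4⟩ := three hFAY hC f3 cf.i3 cf.z3 b hC.bf (fun h => hzb h.symm)
    (fun h => (nX h).2.2.2 rfl) (fun h => (nY h).2.2.2 rfl) hf3 r' q cf.s3 cf.q3 hsX hqY hzs' hzq'
  refine ⟨hP1, ⟨hf2, hf4⟩, ⟨hf1, g1, g2, g3, g4, hf3, k1, k2, k3, k4⟩, ⟨?_, ?_⟩, ?_, ?_⟩
  · rintro t htY ⟨F, hF, hpF, htF⟩
    by_cases hzF : z ∈ F
    · rcases cf.all F hF hzF with h | h | h | h
      · exact h ▸ htF
      · rw [h] at hpF
        have h1 : p ∈ f1 ∩ f2 := ⟨cf.p1, hpF⟩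
        rw [cf.x12] at h1
        rcases h1 with h1 | h1
        · exact absurd h1.symm hzp
        · exact absurd h1 cf.ds.ne.2.2.2.2.2.1
      · rw [h] at hpF
        have h1 : p ∈ f1 ∩ f3 := ⟨cf.p1, hpF⟩
        rw [cf.x13] at h1
        exact absurd h1.symm hzp
      · rw [h] at htF
        rcases hf4 htF with h1 | h1
        · exact absurd h1 (nY htY).2.1
        · exact (hXY t h1 htY).elim
    · have h1 := (hP1 F hF hzF ⟨p, hpF, hpX⟩ ⟨t, htF, htY⟩).2
      have h2 := c3 b hC.bf (fun h => hzb h.symm) ⟨F, hF, hpF, h1⟩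
      exact absurd h2.symm (nX hsX).2.2.2
  · rintro t htX ⟨F, hF, hqF, htF⟩
    by_cases hzF : z ∈ F
    · rcases cf.all F hF hzF with h | h | h | h
      · rw [h] at hqF
        have h1 : q ∈ f1 ∩ f2 := ⟨hqF, cf.q2⟩
        rw [cf.x12] at h1
        rcases h1 with h1 | h1
        · exact absurd h1.symm hzq
        · exact absurd h1 cf.ds.ne.2.2.2.2.2.2.2.1
      · rw [h] at htF
        rcases hf2 htF with h1 | h1
        · exact absurd h1 (nX htX).2.1
        · exact (hXY t htX h1).elim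
      · exact h ▸ htF
      · rw [h] at hqF
        have h1 : q ∈ f3 ∩ f4 := ⟨cf.q3, hqF⟩
        rw [cf.x34] at h1
        rcases h1 with h1 | h1
        · exact absurd h1.symm hzq
        · exact absurd h1 cf.ds.ne.2.2.2.2.2.2.2.2.1
    · have h1 := (hP1 F hF hzF ⟨t, htF, htX⟩ ⟨q, hqF, hqY⟩).1
      have h2 := c1 σ hC.sf (fun h => hzσ h.symm) ⟨F, hF, hqF, h1⟩
      exact absurd h2.symm (nY hrY).2.2.1
  · exact five hFNB hBAS hCRN hPVB cf hC
  · obtain ⟨s1, -, -, s4⟩ := hSYM V G z v p q r r' f1 f2 f3 f4 cf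
    exact five hFNB hBAS hCRN hPVB s1 (s4 σ b X Y hC)

end Pool.Agent.Helper69.MA
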