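import Pool.Agent.Helper12.MA.StD

/-!
# MA, module EXS: there is a double server
-/

set_option autoImplicit false

namespace Pool.Agent.Helper69.MA

open Pool.Agent.Helper12.MA
open Pool.Agent.Helper51.AJ (IsMinor Planar Apex ExMinor Con Tch)
open Pool.Agent.Helper12.NK (rst Kc add cnt Pcy IsFace Cof plus)

private theorem exc_swap13 {V : Type} {G : SimpleGraph V} {x x' y q₁ q₂ q₃ q₄ : V}
    (h : Exc G x x' y q₁ q₂ q₃ q₄) : Exc G x x' y q₃ q₂ q₁ q₄ where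
  nx c := by rw [h.nx c]; tauto
  nx' c := by rw [h.nx' c]; tauto

private theorem exc_swap23 {V : Type} {G : SimpleGraph V} {x x' y q₁ q₂ q₃ q₄ : V}
    (h : Exc G x x' y q₁ q₂ q₃ q₄) : Exc G x x' y q₁ q₃ q₂ q₄ where
  nx c := by rw [h.nx c]; tauto
  nx' c := by rw [h.nx' c]; tauto

theorem hEXS : StSUB → StEXA → StEXB → StUCD → StEXS := by
  intro hSUB hEXA hEXB hUCD V _ G hG
  by_contra hno
  have hno' : ∀ z v p q r r', ¬ DSc G z v p q r r' :=
    fun z v p q r r' h => hno ⟨z, v, p, q, r, r', h⟩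
  rcases hSUB V G hG with ⟨x, y, hxy, hgood⟩ | ⟨x, x', y, q₁, q₂, q₃, q₄, hE⟩
  · obtain ⟨s, hs⟩ := hG.hd x y hxy
    exact hUCD V G s x y hG hxy hgood hs hno'
  · have hxx' : G.Adj x x' := (hE.nx x').2 (Or.inr (Or.inl rfl))
    obtain ⟨s, hs⟩ := hG.hd x x' hxx'
    by_cases h1 : s = q₁
    · rw [h1] at hs
      exact hno (hEXB V G x x' y q₃ q₂ q₁ q₄ hG (exc_swap13 hE) hs)
    by_cases h2 : s = q₂
    · rw [h2] at hs
      exact hno (hEXB V G x x' y q₁ q₃ q₂ q₄ hG (exc_swap23 hE) hs)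
    by_cases h3 : s = q₃
    · rw [h3] at hs
      exact hno (hEXB V G x x' y q₁ q₂ q₃ q₄ hG hE hs)
    exact hno (hEXA V G x x' y q₁ q₂ q₃ q₄ s hG hE hs h1 h2 h3)

end Pool.Agent.Helper69.MA
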